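import Pool.Agent.W889.SD.Comb
import Pool.Agent.W889.SD.Deg

set_option autoImplicit false

/-!
The countable-or-perfect dichotomy for the action of the Polish group of all permutations of `ℕ` on
the graphs on `ℕ` without certain subgraphs implies the dichotomy for all logic actions, unless one
of the forbidden subgraphs is a subgraph of a disjoint union of subdivided stars.
-/

namespace Pool.Agent.Results.MP_5607ba_lc.ForbiddenSubgraphActions

/-- Relational structures on `ℕ` with relations of arities `a 0, a 1, ...`. -/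
abbrev Str (a : ℕ → ℕ) : Type := (i : ℕ) → (Fin (a i) → ℕ) → Bool

/-- The orbit equivalence relation of the logic action of the Polish group of all permutations of
`ℕ` on these structures: isomorphism. -/
def Iso {a : ℕ → ℕ} (x y : Str a) : Prop :=
  ∃ σ : Equiv.Perm ℕ, ∀ (i : ℕ) (v : Fin (a i) → ℕ), y i (⇑σ ∘ v) = x i v

/-- Binary relations on `ℕ`. -/
abbrev Rel : Type := ℕ → ℕ → Bool

/-- The orbit equivalence relation of the action of the group of all permutations of `ℕ` on the
binary relations: isomorphism. -/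
def RelIso (x y : Rel) : Prop := ∃ σ : Equiv.Perm ℕ, ∀ m n, y (σ m) (σ n) = x m n

/-- The forest of infinitely many stars with infinitely many infinite legs: the point `(c, none)` is
the centre of the star `c`, the points `(c, some (l, 0)), (c, some (l, 1)), ...` are its leg `l`. -/
def spiderForest : SimpleGraph (ℕ × Option (ℕ × ℕ)) :=
  SimpleGraph.fromRel fun u v => u.1 = v.1 ∧
    ((u.2 = none ∧ ∃ l, v.2 = some (l, 0)) ∨ ∃ l d, u.2 = some (l, d) ∧ v.2 = some (l, d + 1))

/-- `H` is isomorphic to a subgraph (not necessarily induced) of `G`. -/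
def IsSubgraph {V W : Type} (H : SimpleGraph V) (G : W → W → Prop) : Prop :=
  ∃ f : V → W, Function.Injective f ∧ ∀ u v, H.Adj u v → G (f u) (f v)

/-- The relation `x` is a simple graph, and none of the graphs `H i` is a subgraph of it. -/
structure GraphAvoiding {I : Type} {V : I → Type} (H : ∀ i, SimpleGraph (V i)) (x : Rel) :
    Prop where
  irrefl : ∀ u, x u u = false
  symm : ∀ u v, x u v = true → x v u = true
  free : ∀ i, ¬ IsSubgraph (H i) (fun u v => x u v = true)

/-- The countable-or-perfect dichotomy for the invariant Borel sets of members of `K`: such a set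
has countably many `E`-classes, or a Borel map from the Cantor space into it sends distinct points
to inequivalent points. -/
def CountableOrPerfect {X : Type} [MeasurableSpace X] (E : X → X → Prop) (K : X → Prop) : Prop :=
  ∀ B : Set X, MeasurableSet B → (∀ x y, E x y → (x ∈ B ↔ y ∈ B)) → (∀ x ∈ B, K x) →
    (∃ f : ℕ → X, ∀ x ∈ B, ∃ n, E (f n) x) ∨
    (∃ g : (ℕ → Bool) → X, Measurable g ∧ (∀ c, g c ∈ B) ∧ ∀ c d, E (g c) (g d) → c = d)

/-- `K` is faithfully complete: for every invariant Borel class `B` of structures (in any countable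
relational language) there are an `E`-invariant Borel set `B'` of members of `K` and a Borel map `F`
from `B'` to `B` that induces a bijection of the `E`-classes and the isomorphism types. -/
def FaithfullyComplete {Y : Type} [MeasurableSpace Y] (E : Y → Y → Prop) (K : Y → Prop) : Prop :=
  ∀ (a : ℕ → ℕ) (B : Set (Str a)), MeasurableSet B → (∀ x y, Iso x y → (x ∈ B ↔ y ∈ B)) →
    ∃ (B' : Set Y) (F : Y → Str a), MeasurableSet B' ∧ (∀ y z, E y z → (y ∈ B' ↔ z ∈ B')) ∧
      (∀ y ∈ B', K y) ∧ Measurable F ∧ (∀ y ∈ B', F y ∈ B) ∧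
      (∀ y ∈ B', ∀ z ∈ B', E y z ↔ Iso (F y) (F z)) ∧ ∀ x ∈ B, ∃ y ∈ B', Iso x (F y)

private theorem iso_symm {a : ℕ → ℕ} {x y : Str a} (h : Iso x y) : Iso y x := by
  obtain ⟨σ, h⟩ := h
  refine ⟨σ⁻¹, fun i v => ?_⟩
  have := h i (⇑σ⁻¹ ∘ v)
  rw [← this]
  congr 1
  funext k
  simp

private theorem iso_trans {a : ℕ → ℕ} {x y z : Str a} (h : Iso x y) (h' : Iso y z) : Iso x z := by
  obtain ⟨σ, h⟩ := h
  obtain ⟨τ, h'⟩ := h'
  refine ⟨τ * σ, fun i v => ?_⟩
  rw [← h, ← h']
  rfl

private theorem transfer {Y : Type} [MeasurableSpace Y] {E : Y → Y → Prop} {K : Y → Prop}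
    (hf : FaithfullyComplete E K) (hV : CountableOrPerfect E K) (a : ℕ → ℕ) :
    CountableOrPerfect (Iso (a := a)) (fun _ => True) := by
  intro B hB hinv _
  obtain ⟨B', F, h1, h2, h3, h4, h5, h6, h7⟩ := hf a B hB hinv
  rcases hV B' h1 h2 h3 with ⟨f, hf⟩ | ⟨g, k1, k2, k3⟩
  · left
    refine ⟨fun n => F (f n), fun x hx => ?_⟩
    obtain ⟨y, hy, hxy⟩ := h7 x hx
    obtain ⟨n, hn⟩ := hf y hy
    have hn' : f n ∈ B' := (h2 _ _ hn).2 hy
    exact ⟨n, iso_trans ((h6 _ hn' _ hy).1 hn) (iso_symm hxy)⟩
  · right
    exact ⟨fun c => F (g c), h4.comp k1, fun c => h5 _ (k2 c),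
      fun c d h => k3 c d ((h6 _ (k2 c) _ (k2 d)).2 h)⟩

/-- **Theorem.** Let `H i`, `i ∈ I`, be finitely many countable graphs, none of which is a subgraph
of the forest of infinitely many stars with infinitely many infinite legs. Then the graphs on `ℕ`
with none of the subgraphs `H i` are faithfully complete. So the countable-or-perfect dichotomy for
the invariant Borel sets of such graphs implies the dichotomy for the invariant Borel sets of all
the logic actions of the group of all permutations of `ℕ`. -/
theorem result {I : Type} [Finite I] {V : I → Type} [∀ i, Countable (V i)]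
    (H : ∀ i, SimpleGraph (V i)) (h : ∀ i, ¬ IsSubgraph (H i) spiderForest.Adj) :
    FaithfullyComplete RelIso (GraphAvoiding H) ∧
    (CountableOrPerfect RelIso (GraphAvoiding H) →
      ∀ a : ℕ → ℕ, CountableOrPerfect (Iso (a := a)) (fun _ => True)) := by
  classical
  cases nonempty_fintype I
  choose m hm using fun i => Pool.Agent.W889.SD.avoid (H i) (h i)
  have hf : Pool.Agent.W889.VC.Faithful RelIso (GraphAvoiding H) := by
    refine (Pool.Agent.W889.SD.faithful_sub (Finset.univ.sup m)).mono fun y hy => ?_
    have hs := hy.1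
    refine ⟨fun u => ?_, fun u v huv => hs.symm u v huv, fun i hi => ?_⟩
    · exact Bool.eq_false_iff.2 fun h => hs.irrefl u h
    · exact hm i _ (Finset.le_sup (Finset.mem_univ i)) ℕ _ hs hi
  exact ⟨hf, transfer hf⟩

end Pool.Agent.Results.MP_5607ba_lc.ForbiddenSubgraphActions
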