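import Pool.Agent.TH686.DO.Rat

set_option autoImplicit false

/-!
The countable-or-perfect dichotomy for the action, by conjugation, of the Polish group of the order
automorphisms of the rational numbers on the involutions of the rational numbers implies the
dichotomy for all logic actions of the group of all permutations of the natural numbers.
-/

namespace Pool.Agent.Results.MP_5607ba_lc.InvolutionsOfRationals

/-- Relational structures on `ℕ` with relations of arities `a 0, a 1, ...`. -/
abbrev Str (a : ℕ → ℕ) : Type := (i : ℕ) → (Fin (a i) → ℕ) → Bool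

/-- The orbit equivalence relation of the logic action of the Polish group of all permutations of
`ℕ` on these structures: isomorphism. -/
def Iso {a : ℕ → ℕ} (x y : Str a) : Prop :=
  ∃ σ : Equiv.Perm ℕ, ∀ (i : ℕ) (v : Fin (a i) → ℕ), y i (⇑σ ∘ v) = x i v

/-- The orbit equivalence relation of the action, by conjugation, of the Polish group of the order
automorphisms `φ` of `ℚ` on the maps from `ℚ` to `ℚ`: `t = φ ∘ s ∘ φ⁻¹`. -/
def Conjugate (s t : ℚ → ℚ) : Prop := ∃ φ : ℚ ≃o ℚ, ∀ q, t (φ q) = φ (s q)

/-- The involutions of `ℚ` without fixed points which exchange an initial segment of `ℚ` with its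
complement. (The elements `p` with `p < s p` are below all their images `s q`.) -/
structure CutInvolution (s : ℚ → ℚ) : Prop where
  involutive : ∀ q, s (s q) = q
  noFixedPoint : ∀ q, s q ≠ q
  cut : ∀ p q, p < s p → q < s q → p < s q

/-- The countable-or-perfect dichotomy for the invariant Borel sets of members of `K`: such a set
has countably many `E`-classes, or a Borel map from the Cantor space into it sends distinct points
to inequivalent points. -/
def CountableOrPerfect {X : Type} [MeasurableSpace X] (E : X → X → Prop) (K : X → Prop) : Prop :=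
  ∀ B : Set X, MeasurableSet B → (∀ x y, E x y → (x ∈ B ↔ y ∈ B)) → (∀ x ∈ B, K x) →
    (∃ f : ℕ → X, ∀ x ∈ B, ∃ n, E (f n) x) ∨
    (∃ g : (ℕ → Bool) → X, Measurable g ∧ (∀ c, g c ∈ B) ∧ ∀ c d, E (g c) (g d) → c = d)

/-- `K` is faithfully complete: for every invariant Borel class `B` of structures (in any countable
relational language) there are an `E`-invariant Borel set `B'` of members of `K` and a Borel map `F`
from `B'` to `B` that induces a bijection of the `E`-classes and the isomorphism types. -/
def FaithfullyComplete {Y : Type} [MeasurableSpace Y] (E : Y → Y → Prop) (K : Y → Prop) : Prop :=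
  ∀ (a : ℕ → ℕ) (B : Set (Str a)), MeasurableSet B → (∀ x y, Iso x y → (x ∈ B ↔ y ∈ B)) →
    ∃ (B' : Set Y) (F : Y → Str a), MeasurableSet B' ∧ (∀ y z, E y z → (y ∈ B' ↔ z ∈ B')) ∧
      (∀ y ∈ B', K y) ∧ Measurable F ∧ (∀ y ∈ B', F y ∈ B) ∧
      (∀ y ∈ B', ∀ z ∈ B', E y z ↔ Iso (F y) (F z)) ∧ ∀ x ∈ B, ∃ y ∈ B', Iso x (F y)

private theorem iso_symm {a : ℕ → ℕ} {x y : Str a} (h : Iso x y) : Iso y x := by
  obtain ⟨σ, h⟩ := h
  refine ⟨σ⁻¹, fun i v => ?_⟩
  have := h i (⇑σ⁻¹ ∘ v)
  rw [← this]
  congr 1
  funext k
  simp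

private theorem iso_trans {a : ℕ → ℕ} {x y z : Str a} (h : Iso x y) (h' : Iso y z) : Iso x z := by
  obtain ⟨σ, h⟩ := h
  obtain ⟨τ, h'⟩ := h'
  refine ⟨τ * σ, fun i v => ?_⟩
  rw [← h, ← h']
  rfl

private theorem transfer {Y : Type} [MeasurableSpace Y] {E : Y → Y → Prop} {K : Y → Prop}
    (hf : FaithfullyComplete E K) (hV : CountableOrPerfect E K) (a : ℕ → ℕ) :
    CountableOrPerfect (Iso (a := a)) (fun _ => True) := by
  intro B hB hinv _
  obtain ⟨B', F, h1, h2, h3, h4, h5, h6, h7⟩ := hf a B hB hinv
  rcases hV B' h1 h2 h3 with ⟨f, hf⟩ | ⟨g, k1, k2, k3⟩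
  · left
    refine ⟨fun n => F (f n), fun x hx => ?_⟩
    obtain ⟨y, hy, hxy⟩ := h7 x hx
    obtain ⟨n, hn⟩ := hf y hy
    have hn' : f n ∈ B' := (h2 _ _ hn).2 hy
    exact ⟨n, iso_trans ((h6 _ hn' _ hy).1 hn) (iso_symm hxy)⟩
  · right
    exact ⟨fun c => F (g c), h4.comp k1, fun c => h5 _ (k2 c),
      fun c d h => k3 c d ((h6 _ (k2 c) _ (k2 d)).2 h)⟩

/-- **Theorem.** The space of the cut involutions of `ℚ`, with the action of the order automorphisms
of `ℚ` by conjugation, is faithfully complete for the logic actions. In particular the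
countable-or-perfect dichotomy for the invariant Borel sets of this single Borel `Aut(ℚ, <)`-space
implies the dichotomy for the invariant Borel sets of all the logic actions of the group of all
permutations of `ℕ`. -/
theorem result : FaithfullyComplete Conjugate CutInvolution ∧
    (CountableOrPerfect Conjugate CutInvolution →
      ∀ a : ℕ → ℕ, CountableOrPerfect (Iso (a := a)) (fun _ => True)) := by
  have e : CutInvolution = Pool.Agent.TH686.DO.XI :=
    funext fun s => propext ⟨fun h => ⟨h.involutive, h.noFixedPoint, h.cut⟩,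
      fun h => ⟨h.inv, h.ne, h.cut⟩⟩
  have hf : FaithfullyComplete Conjugate CutInvolution := by
    rw [e]
    exact Pool.Agent.TH686.DO.faithful_XI
  exact ⟨hf, transfer hf⟩

end Pool.Agent.Results.MP_5607ba_lc.InvolutionsOfRationals
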