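import Pool.Agent.V11227.NA.Rep

/-!
# Permutation groups without algebraicity decide the dichotomy for all non-archimedean Polish groups

Let `Γ` be a closed permutation group of `ℕ` without algebraicity: every point outside a finite set
`F` has an infinite orbit under the pointwise stabiliser of `F`. A colouring of `ℕ` is generic if all
colours occur in each of these orbits. Any two generic colourings are conjugate under `Γ`, with any
permutation of the colours (starting module `Pool.Agent.W889.TV.Basic`). If `X` is a Borel space of
the group of all permutations, then the pairs of a generic colouring and a point of `X`, up to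
permutations of the colours, are a Borel `Γ`-space with the same orbits: in each class we choose the
pair in which the colours occur in their natural order for the first time.

The statement uses the group `Sym` of `Pool.Agent.V11227.NA.Sub`: the permutations of `ℕ` with the
topology of pointwise convergence (generated by the sets of all `π` with `π.toMap i = j`) and its
Borel sets; `π.toMap` is `π` as a map.
-/

set_option autoImplicit false

namespace Pool.Agent.Results.MP_5607ba_lc.NoAlgebraicity

open Pool.Agent.V11227.NA

/-- The question for the group `G`, as in the problem: every Borel action of `G` on a standard Borel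
space has countably many orbits, or there is a Borel map from the Cantor space which sends distinct
points to distinct orbits. -/
def Dichotomy (G : Type) [Group G] [MeasurableSpace G] : Prop :=
  ∀ (X : Type) [MeasurableSpace X] [StandardBorelSpace X] [MulAction G X] [MeasurableSMul₂ G X],
    Countable (Quotient (MulAction.orbitRel G X)) ∨
    ∃ f : (ℕ → Bool) → X, Measurable f ∧
      ∀ x y : ℕ → Bool, x ≠ y → ¬ ∃ g : G, g • f x = f y

/-- Every Borel action of `K` on a standard Borel space `X` is represented by a Borel action of `G`
on a standard Borel space `Y`: there are Borel maps `p : Y → X` and `s : X → Y` with `p ∘ s = id`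
such that `y` and `z` are in one orbit of `G` iff `p y` and `p z` are in one orbit of `K`. -/
def Represents (G K : Type) [Group G] [MeasurableSpace G] [Group K] [MeasurableSpace K] : Prop :=
  ∀ (X : Type) [MeasurableSpace X] [StandardBorelSpace X] [MulAction K X] [MeasurableSMul₂ K X],
    ∃ (Y : Type) (_ : MeasurableSpace Y) (_ : StandardBorelSpace Y) (_ : MulAction G Y)
      (_ : MeasurableSMul₂ G Y) (p : Y → X) (s : X → Y), Measurable p ∧ Measurable s ∧
      (∀ x, p (s x) = x) ∧ ∀ y z : Y, (∃ g : G, g • y = z) ↔ ∃ k : K, k • p y = p z

/-- The image of `φ` is closed: it contains every permutation which agrees on each finite set with a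
member of the image. -/
def ClosedImage {H : Type} [Group H] (φ : H →* Equiv.Perm ℕ) : Prop :=
  ∀ σ : Equiv.Perm ℕ, (∀ F : Finset ℕ, ∃ h, ∀ a ∈ F, φ h a = σ a) → ∃ h, φ h = σ

/-- The action `φ` has no algebraicity: a point outside a finite set `F` has an infinite orbit under
the elements which fix all points of `F`. -/
def NoAlg {H : Type} [Group H] (φ : H →* Equiv.Perm ℕ) : Prop :=
  ∀ (F : Finset ℕ) (a : ℕ), a ∉ F → {b | ∃ h, (∀ c ∈ F, φ h c = c) ∧ φ h a = b}.Infinite

/-- The permutation group `Γ` has no algebraicity. -/
def WithoutAlgebraicity (Γ : Subgroup Sym) : Prop :=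
  ∀ (F : Finset ℕ) (a : ℕ), a ∉ F →
    {b | ∃ g ∈ Γ, (∀ c ∈ F, g.toMap c = c) ∧ g.toMap a = b}.Infinite

/-- **Groups without algebraicity.**

(1) Let `U` be a Polish group, `H` a closed subgroup and `φ` a Borel homomorphism from `H` to the
permutations of `ℕ` with closed image and without algebraicity. Then every Borel action of every
closed permutation group `Δ` of `ℕ` is represented by a Borel action of `U`, and the dichotomy for
`U` implies the dichotomy for `Δ`.

(2) For a closed permutation group `Γ` without algebraicity, the dichotomy for `Γ` is equivalent to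
the dichotomy for all closed permutation groups. -/
theorem result :
    (∀ (U : Type) [TopologicalSpace U] [Group U] [IsTopologicalGroup U] [PolishSpace U]
      [MeasurableSpace U] [BorelSpace U] (H : Subgroup U), IsClosed (H : Set U) →
      ∀ φ : H →* Equiv.Perm ℕ, (∀ a b : ℕ, MeasurableSet {h : H | φ h a = b}) →
      ClosedImage φ → NoAlg φ →
      ∀ Δ : Subgroup Sym, IsClosed (Δ : Set Sym) →
        Represents U Δ ∧ (Dichotomy U → Dichotomy Δ)) ∧
    (∀ Γ : Subgroup Sym, IsClosed (Γ : Set Sym) → WithoutAlgebraicity Γ →
      (∀ Δ : Subgroup Sym, IsClosed (Δ : Set Sym) → Represents Γ Δ) ∧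
      (Dichotomy Γ ↔ ∀ Δ : Subgroup Sym, IsClosed (Δ : Set Sym) → Dichotomy Δ)) := by
  constructor
  · intro U _ _ _ _ _ _ H hH φ hφ h1 h2 Δ hΔ
    have h : Rep U Δ := (rep_sub H hH).trans (rep_all φ hφ h1 h2 Δ hΔ)
    exact ⟨h, h.tvc⟩
  · intro Γ hΓ h1
    exact ⟨fun Δ hΔ => rep_perm Γ hΓ h1 Δ hΔ,
      fun h Δ hΔ => (rep_perm Γ hΓ h1 Δ hΔ).tvc h, fun h => h Γ hΓ⟩

end Pool.Agent.Results.MP_5607ba_lc.NoAlgebraicity
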