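import Mathlib
import Pool.Agent.V1170.UT.Emb

set_option autoImplicit false
set_option linter.all false

/-!
One continuous action of the unitary group of the separable Hilbert space on one compact metrizable
space such that the countable-or-perfect dichotomy for its invariant Borel subsets is equivalent to
the dichotomy for all Borel actions of all Polish groups.
-/

namespace Pool.Agent.Results.MP_5607ba_lc.UnitaryGroupFlow

open Pool.Agent.Helper289.UO

/-- The complex Hilbert space `ℓ²`. -/
abbrev Hilbert : Type := lp (fun _ : ℕ => ℂ) 2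

/-- The unitary group of `ℓ²`: its linear isometric bijections. -/
def UnitaryGroup : Type := Hilbert ≃ₗᵢ[ℂ] Hilbert

/-- The group structure: composition. -/
noncomputable instance instGroup : Group UnitaryGroup := inferInstanceAs (Group (Hilbert ≃ₗᵢ[ℂ] Hilbert))

/-- A unitary operator as a map. -/
noncomputable def UnitaryGroup.toMap (U : UnitaryGroup) : Hilbert → Hilbert :=
  fun x => (show Hilbert ≃ₗᵢ[ℂ] Hilbert from U) x

/-- The strong operator topology: the topology of pointwise convergence on `ℓ²`. -/
noncomputable instance instTop : TopologicalSpace UnitaryGroup :=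
  TopologicalSpace.induced UnitaryGroup.toMap inferInstance

/-- Q1 of the problem (the body of the frozen statement `S14719`): every Borel action of a Polish
group on a standard Borel space has countably many or perfectly many orbits. -/
def Question1 : Prop :=
  ∀ (G : Type) [TopologicalSpace G] [Group G] [IsTopologicalGroup G] [PolishSpace G]
    [MeasurableSpace G] [BorelSpace G]
    (X : Type) [MeasurableSpace X] [StandardBorelSpace X]
    [MulAction G X] [MeasurableSMul₂ G X],
    Countable (Quotient (MulAction.orbitRel G X)) ∨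
    ∃ f : (ℕ → Bool) → X, Measurable f ∧
      ∀ x y : ℕ → Bool, x ≠ y → ¬ ∃ g : G, g • f x = f y

/-- The dichotomy for an invariant set `B` of an action of the unitary group: `B` has countably many
orbits, or a Borel map from the Cantor space into `B` sends distinct points to distinct orbits. -/
def CountableOrPerfect {K : Type} [MeasurableSpace K] [MulAction UnitaryGroup K] (B : Set K) :
    Prop :=
  (∃ S : Set K, S.Countable ∧ ∀ x ∈ B, ∃ y ∈ S, ∃ U : UnitaryGroup, U • y = x) ∨
    ∃ f : (ℕ → Bool) → K, Measurable f ∧ (∀ c, f c ∈ B) ∧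
      ∀ c d : ℕ → Bool, c ≠ d → ¬ ∃ U : UnitaryGroup, U • f c = f d

/-- `K` contains every Borel action of every Polish group up to Borel isomorphism of orbit spaces:
for each Borel action of a Polish group `G` on a standard Borel space `X` there are an invariant
Borel set `B ⊆ K` and Borel maps `f : X → B`, `g : B → X` with `g ∘ f = id` such that two points of
`B` are in one orbit of the unitary group iff their images under `g` are in one `G`-orbit (hence two
points of `X` are in one orbit iff their images under `f` are). -/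
def ContainsAllBorelActions (K : Type) [MeasurableSpace K] [MulAction UnitaryGroup K] : Prop :=
  ∀ (G : Type) [TopologicalSpace G] [Group G] [IsTopologicalGroup G] [PolishSpace G]
    [MeasurableSpace G] [BorelSpace G]
    (X : Type) [MeasurableSpace X] [StandardBorelSpace X]
    [MulAction G X] [MeasurableSMul₂ G X],
    ∃ B : Set K, MeasurableSet B ∧ (∀ (U : UnitaryGroup), ∀ x ∈ B, U • x ∈ B) ∧
      ∃ (f : X → K) (g : B → X), Measurable f ∧ Measurable g ∧
        (∀ x, ∃ h : f x ∈ B, g ⟨f x, h⟩ = x) ∧
        ∀ b c : B, (∃ U : UnitaryGroup, U • b.1 = c.1) ↔ ∃ h : G, h • g b = g c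

private theorem dichotomy_to_question {K : Type} [MeasurableSpace K] [MulAction UnitaryGroup K]
    (hK : ContainsAllBorelActions K)
    (h : ∀ B : Set K, MeasurableSet B → (∀ (U : UnitaryGroup), ∀ x ∈ B, U • x ∈ B) →
      CountableOrPerfect B) : Question1 := by
  intro G _ _ _ _ _ _ X _ _ _ _
  obtain ⟨B, hB, hBi, f, g, hf, hg, hfg, hiff⟩ := hK G X
  rcases h B hB hBi with ⟨S, hS, hSB⟩ | ⟨φ, hφ, hφB, hφd⟩
  · left
    haveI : Countable S := hS.to_subtype
    have hex : ∀ q : Quotient (MulAction.orbitRel G X), ∃ y : S, ∃ U : UnitaryGroup,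
        U • y.1 = f q.out := by
      intro q
      obtain ⟨y, hy, U, hU⟩ := hSB (f q.out) (hfg q.out).1
      exact ⟨⟨y, hy⟩, U, hU⟩
    choose s hs using hex
    have hinj : Function.Injective s := by
      intro q r hqr
      obtain ⟨U, hU⟩ := hs q
      obtain ⟨V, hV⟩ := hs r
      rw [← hqr] at hV
      obtain ⟨hq1, hq2⟩ := hfg q.out
      obtain ⟨hr1, hr2⟩ := hfg r.out
      have h1 : ∃ W : UnitaryGroup, W • (⟨f r.out, hr1⟩ : B).1 = (⟨f q.out, hq1⟩ : B).1 := by
        refine ⟨U * V⁻¹, ?_⟩
        show (U * V⁻¹) • f r.out = f q.out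
        rw [← hV, mul_smul, inv_smul_smul, hU]
      have h2 := (hiff _ _).1 h1
      rw [hq2, hr2] at h2
      have h3 : (MulAction.orbitRel G X) q.out r.out := h2
      rw [← q.out_eq, ← r.out_eq]
      exact Quotient.sound h3
    exact hinj.countable
  · right
    refine ⟨fun c => g ⟨φ c, hφB c⟩, hg.comp (hφ.subtype_mk (h := hφB)), ?_⟩
    intro x y hxy hG
    exact hφd x y hxy ((hiff ⟨φ x, hφB x⟩ ⟨φ y, hφB y⟩).2 hG)

private theorem question_to_dichotomy {K : Type} [TopologicalSpace K] [PolishSpace K]
    [MeasurableSpace K] [BorelSpace K] [MulAction UnitaryGroup K] [ContinuousSMul UnitaryGroup K]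
    (h : Question1) (B : Set K) (hB : MeasurableSet B)
    (hBi : ∀ (U : UnitaryGroup), ∀ x ∈ B, U • x ∈ B) : CountableOrPerfect B := by
  haveI : IsTopologicalGroup UnitaryGroup := uu_topgroup
  haveI : PolishSpace UnitaryGroup := uu_polish
  letI : MeasurableSpace UnitaryGroup := borel UnitaryGroup
  haveI : BorelSpace UnitaryGroup := ⟨rfl⟩
  haveI : StandardBorelSpace B := hB.standardBorel
  letI : MulAction UnitaryGroup B :=
    { smul := fun U b => ⟨U • b.1, hBi U b.1 b.2⟩
      one_smul := fun b => Subtype.ext (one_smul _ b.1)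
      mul_smul := fun U V b => Subtype.ext (mul_smul U V b.1) }
  have hval : ∀ (U : UnitaryGroup) (b : B), (U • b).1 = U • b.1 := fun _ _ => rfl
  haveI : MeasurableSMul₂ UnitaryGroup B := by
    constructor
    have h1 : Measurable (fun p : UnitaryGroup × K => p.1 • p.2) := continuous_smul.measurable
    have h2 : Measurable (fun p : UnitaryGroup × B => p.1 • p.2.1) :=
      h1.comp (measurable_fst.prodMk (measurable_subtype_coe.comp measurable_snd))
    exact h2.subtype_mk (h := fun p => hBi p.1 p.2.1 p.2.2)
  rcases h UnitaryGroup B with hc | ⟨φ, hφ, hφd⟩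
  · left
    refine ⟨Set.range (fun q : Quotient (MulAction.orbitRel UnitaryGroup B) => (q.out).1),
      Set.countable_range _, ?_⟩
    intro x hx
    refine ⟨((Quotient.mk (MulAction.orbitRel UnitaryGroup B) ⟨x, hx⟩).out).1, ⟨_, rfl⟩, ?_⟩
    have h1 : (MulAction.orbitRel UnitaryGroup B)
        ((Quotient.mk (MulAction.orbitRel UnitaryGroup B) ⟨x, hx⟩).out) ⟨x, hx⟩ :=
      Quotient.exact (Quotient.out_eq (Quotient.mk (MulAction.orbitRel UnitaryGroup B) ⟨x, hx⟩))
    obtain ⟨U, hU⟩ := (MulAction.orbitRel UnitaryGroup B).symm h1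
    refine ⟨U, ?_⟩
    have := congrArg Subtype.val hU
    exact this
  · right
    refine ⟨fun c => (φ c).1, measurable_subtype_coe.comp hφ, fun c => (φ c).2, ?_⟩
    rintro c d hcd ⟨U, hU⟩
    exact hφd c d hcd ⟨U, Subtype.ext hU⟩

/-- The dichotomy for all invariant Borel subsets of `K`. -/
def DichotomyIn (K : Type) [MeasurableSpace K] [MulAction UnitaryGroup K] : Prop :=
  ∀ B : Set K, MeasurableSet B → (∀ (U : UnitaryGroup), ∀ x ∈ B, U • x ∈ B) → CountableOrPerfect B

/-- A compact metrizable space with its Borel sets and a continuous action of the unitary group. -/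
structure IsCompactFlow (K : Type) [TopologicalSpace K] [MeasurableSpace K]
    [MulAction UnitaryGroup K] : Prop where
  borel : BorelSpace K
  compact : CompactSpace K
  metrizable : TopologicalSpace.MetrizableSpace K
  continuous : Continuous (fun p : UnitaryGroup × K => p.1 • p.2)

/-- **One action of the unitary group.** There is a continuous action of the unitary group of `ℓ²`
on a compact metrizable space `K` such that `K` contains every Borel action of every Polish group up
to Borel isomorphism of orbit spaces (`ContainsAllBorelActions`), and such that Q1 holds for all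
Polish groups if and only if the dichotomy holds for the invariant Borel subsets of `K`. -/
theorem result :
    ∃ (K : Type) (_ : TopologicalSpace K) (_ : MeasurableSpace K) (_ : MulAction UnitaryGroup K),
      IsCompactFlow K ∧ ContainsAllBorelActions K ∧ (Question1 ↔ DichotomyIn K) := by
  haveI : IsTopologicalGroup UnitaryGroup := uu_topgroup
  haveI : PolishSpace UnitaryGroup := uu_polish
  letI : MeasurableSpace UnitaryGroup := borel UnitaryGroup
  haveI : BorelSpace UnitaryGroup := ⟨rfl⟩
  obtain ⟨ν, hν⟩ := group_norm UnitaryGroup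
  haveI : PolishSpace (KK ν) := kk_polish UnitaryGroup ν hν
  haveI : CompactSpace (KK ν) := measurable_of_eval_compact UnitaryGroup ν
  letI : MeasurableSpace (ℕ → KK ν) := borel (ℕ → KK ν)
  haveI hbs : BorelSpace (ℕ → KK ν) := @BorelSpace.mk _ _ (borel _) rfl
  letI : MulAction UnitaryGroup (ℕ → KK ν) := Pool.Agent.V1170.UT.flow ν
  haveI hcs : ContinuousSMul UnitaryGroup (ℕ → KK ν) := ⟨act_cont UnitaryGroup ν hν⟩
  have hall : ContainsAllBorelActions (ℕ → KK ν) := by
    intro G _ _ _ _ _ _ X _ _ _ _
    obtain ⟨G₀, p, hG₀, hp, hps⟩ : ∃ (G₀ : Subgroup UnitaryGroup) (p : G₀ →* G),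
      IsClosed (G₀ : Set UnitaryGroup) ∧ Continuous p ∧ Function.Surjective p := thmA G
    obtain ⟨σ, hσ, hσm, hσi⟩ := Pool.Agent.V1170.UT.coset_selector UnitaryGroup G₀ hG₀
    let D : Pool.Agent.V1170.UT.Dat UnitaryGroup G := ⟨G₀, p, hp, hps, σ, hσ, hσm, hσi⟩
    obtain ⟨e, he, hei, het⟩ := Pool.Agent.V1170.UT.borel_embed UnitaryGroup ν hν
      (Pool.Agent.V1170.UT.Sp D X)
    have hme : MeasurableEmbedding e := Measurable.measurableEmbedding he hei
    refine ⟨Set.range e, hme.measurableSet_range, ?_, fun x => e (Pool.Agent.V1170.UT.inc D x),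
      fun b => Pool.Agent.V1170.UT.prj D (hme.equivRange.symm b), ?_, ?_, ?_, ?_⟩
    · rintro U _ ⟨w, rfl⟩
      exact ⟨U • w, (het U w).symm⟩
    · exact he.comp (Pool.Agent.V1170.UT.inc_measurable D)
    · exact (Pool.Agent.V1170.UT.prj_measurable D).comp hme.equivRange.symm.measurable
    · intro x
      refine ⟨⟨_, rfl⟩, ?_⟩
      have h1 := hme.equivRange_symm_apply_mk (Pool.Agent.V1170.UT.inc D x)
      exact congrArg (Pool.Agent.V1170.UT.prj D) h1
    · intro b c
      rw [← Pool.Agent.V1170.UT.orbit_iff D]
      have hb : e (hme.equivRange.symm b) = b.1 := by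
        have h1 := hme.equivRange.apply_symm_apply b
        rw [hme.equivRange_apply] at h1
        exact congrArg Subtype.val h1
      have hc : e (hme.equivRange.symm c) = c.1 := by
        have h1 := hme.equivRange.apply_symm_apply c
        rw [hme.equivRange_apply] at h1
        exact congrArg Subtype.val h1
      constructor
      · rintro ⟨U, hU⟩
        refine ⟨U, hei ?_⟩
        rw [hc, ← hU, ← hb]
        exact (het U _).symm
      · rintro ⟨U, hU⟩
        refine ⟨U, ?_⟩
        rw [← hb, ← hc, ← hU]
        exact het U _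
  refine ⟨ℕ → KK ν, inferInstance, inferInstance, inferInstance,
    ⟨hbs, inferInstance, inferInstance, act_cont UnitaryGroup ν hν⟩, hall, ?_⟩
  constructor
  · intro h B hB hBi
    exact question_to_dichotomy h B hB hBi
  · exact dichotomy_to_question hall

end Pool.Agent.Results.MP_5607ba_lc.UnitaryGroupFlow
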